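import Mathlib
import Pool.Agent.MP_75988d_co.H57.Check

namespace Pool.Agent.Results.MP_75988d_co.Disconnected

/-- A signed permutation of size `n`, written as the list `(π₁, …, πₙ)`:
the absolute values are `1, …, n` in some order. -/
def IsSignedPerm (n : ℕ) (p : List ℤ) : Prop :=
  (p.map Int.natAbs).Perm (List.range' 1 n)

/-- The entries in positions `i, …, j` (positions start at 1), for `r = (i, j)`. -/
def block (r : ℕ × ℕ) (p : List ℤ) : List ℤ := (p.take r.2).drop (r.1 - 1)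

/-- The reversal `ρ_{i,j}` for `r = (i, j)`: reverse the block and change its signs. -/
def rev (r : ℕ × ℕ) (p : List ℤ) : List ℤ :=
  p.take (r.1 - 1) ++ ((block r p).reverse.map fun x => -x) ++ p.drop r.2

/-- `s` is a sequence of reversals `ρ_{i,j}`, `1 ≤ i ≤ j ≤ n`, turning `p` into `(1, …, n)`. -/
def Sorts (n : ℕ) (p : List ℤ) (s : List (ℕ × ℕ)) : Prop :=
  (∀ r ∈ s, 1 ≤ r.1 ∧ r.1 ≤ r.2 ∧ r.2 ≤ n) ∧
    s.foldl (fun q r => rev r q) p = (List.range' 1 n).map fun i : ℕ => (i : ℤ)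

/-- The reversal distance. -/
noncomputable def revDist (n : ℕ) (p : List ℤ) : ℕ :=
  sInf {k | ∃ s, Sorts n p s ∧ s.length = k}

/-- Optimal scenarios. -/
def Optimal (n : ℕ) (p : List ℤ) (s : List (ℕ × ℕ)) : Prop :=
  Sorts n p s ∧ s.length = revDist n p

/-- For each step of the scenario, the set of (unsigned) elements that it reverses. -/
def contents : List ℤ → List (ℕ × ℕ) → List (Finset ℕ)
  | _, [] => []
  | p, r :: s => ((block r p).map Int.natAbs).toFinset :: contents (rev r p) s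

/-- The graph on the optimal scenarios in which two scenarios are joined if they differ in at
most 4 positions, or have a reversal `(i, j)` in common, or have steps reversing the same set
of elements. It contains the graph `G₄`. -/
def moveGraph (n : ℕ) (p : List ℤ) : SimpleGraph {s // Optimal n p s} :=
  SimpleGraph.fromRel fun a b =>
    (a.1.zip b.1).countP (fun x => x.1 ≠ x.2) ≤ 4 ∨ (∃ r ∈ a.1, r ∈ b.1) ∨
      ∃ A ∈ contents p a.1, A ∈ contents p b.1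

/- Proof machinery -/

def allRev : List (ℕ × ℕ) :=
  [(1,1),(1,2),(1,3),(1,4),(1,5),(1,6),(1,7),(2,2),(2,3),(2,4),(2,5),(2,6),(2,7),
   (3,3),(3,4),(3,5),(3,6),(3,7),(4,4),(4,5),(4,6),(4,7),(5,5),(5,6),(5,7),(6,6),(6,7),(7,7)]

def id7 : List ℤ := [1, 2, 3, 4, 5, 6, 7]

def pi7 : List ℤ := [-1, -3, -5, -6, -4, -7, -2]

def classA : List (List (ℕ × ℕ)) :=
  [[(1, 5), (2, 6), (2, 5), (3, 6), (1, 5), (2, 7)],
   [(1, 5), (3, 6), (2, 5), (2, 6), (1, 5), (2, 7)],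
   [(1, 5), (3, 6), (2, 6), (3, 6), (1, 5), (2, 7)]]

def classB : List (List (ℕ × ℕ)) :=
  [[(1, 1), (6, 7), (4, 6), (3, 5), (3, 4), (2, 3)],
   [(1, 1), (6, 7), (4, 6), (4, 5), (3, 5), (2, 3)],
   [(1, 1), (6, 7), (5, 6), (4, 6), (3, 5), (2, 3)],
   [(6, 7), (1, 1), (4, 6), (3, 5), (3, 4), (2, 3)],
   [(6, 7), (1, 1), (4, 6), (4, 5), (3, 5), (2, 3)],
   [(6, 7), (1, 1), (5, 6), (4, 6), (3, 5), (2, 3)],
   [(6, 7), (4, 6), (1, 1), (3, 5), (3, 4), (2, 3)],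
   [(6, 7), (4, 6), (1, 1), (4, 5), (3, 5), (2, 3)],
   [(6, 7), (4, 6), (3, 5), (1, 1), (3, 4), (2, 3)],
   [(6, 7), (4, 6), (3, 5), (3, 4), (1, 1), (2, 3)],
   [(6, 7), (4, 6), (3, 5), (3, 4), (2, 3), (1, 1)],
   [(6, 7), (4, 6), (4, 5), (1, 1), (3, 5), (2, 3)],
   [(6, 7), (4, 6), (4, 5), (3, 5), (1, 1), (2, 3)],
   [(6, 7), (4, 6), (4, 5), (3, 5), (2, 3), (1, 1)],
   [(6, 7), (5, 6), (1, 1), (4, 6), (3, 5), (2, 3)],
   [(6, 7), (5, 6), (4, 6), (1, 1), (3, 5), (2, 3)],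
   [(6, 7), (5, 6), (4, 6), (3, 5), (1, 1), (2, 3)],
   [(6, 7), (5, 6), (4, 6), (3, 5), (2, 3), (1, 1)]]

open Pool.Agent.MP_75988d_co.H57

def e (x : ℤ) : ℕ := (x + 8).toNat

def st {β : Type} (F : ℕ → ℕ → ℕ → ℕ → ℕ → ℕ → ℕ → ℕ → ℕ → ℕ → ℕ → ℕ → ℕ → ℕ → β) (d : β) : List ℤ → β
  | [x1, x2, x3, x4, x5, x6, x7] => F (e x1) (e (-x1)) (e x2) (e (-x2)) (e x3) (e (-x3)) (e x4) (e (-x4)) (e x5) (e (-x5)) (e x6) (e (-x6)) (e x7) (e (-x7))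
  | _ => d

theorem len7 {p : List ℤ} (h : p.length = 7) : ∃ x1 x2 x3 x4 x5 x6 x7 : ℤ, p = [x1, x2, x3, x4, x5, x6, x7] := by
  match p, h with
  | [x1, x2, x3, x4, x5, x6, x7], _ => exact ⟨x1, x2, x3, x4, x5, x6, x7, rfl⟩

theorem mem_allRev {r : ℕ × ℕ} (h : 1 ≤ r.1 ∧ r.1 ≤ r.2 ∧ r.2 ≤ 7) : r ∈ allRev := by
  obtain ⟨i, j⟩ := r
  obtain ⟨h1, h2, h3⟩ := h
  simp only at h1 h2 h3
  have h4 : i ≤ 7 := h2.trans h3
  interval_cases j <;> interval_cases i <;> decide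

theorem rev_len {r : ℕ × ℕ} (hr : r ∈ allRev) {p : List ℤ} (h : p.length = 7) :
    (rev r p).length = 7 := by
  obtain ⟨x1, x2, x3, x4, x5, x6, x7, rfl⟩ := len7 h
  simp only [allRev, List.mem_cons, List.not_mem_nil, or_false] at hr
  rcases hr with rfl|rfl|rfl|rfl|rfl|rfl|rfl|rfl|rfl|rfl|rfl|rfl|rfl|rfl|rfl|rfl|rfl|rfl|rfl|rfl|rfl|rfl|rfl|rfl|rfl|rfl|rfl|rfl <;> rfl

theorem rev_rev {r : ℕ × ℕ} (hr : r ∈ allRev) {p : List ℤ} (h : p.length = 7) :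
    rev r (rev r p) = p := by
  obtain ⟨x1, x2, x3, x4, x5, x6, x7, rfl⟩ := len7 h
  simp only [allRev, List.mem_cons, List.not_mem_nil, or_false] at hr
  rcases hr with rfl|rfl|rfl|rfl|rfl|rfl|rfl|rfl|rfl|rfl|rfl|rfl|rfl|rfl|rfl|rfl|rfl|rfl|rfl|rfl|rfl|rfl|rfl|rfl|rfl|rfl|rfl|rfl <;> simp [rev, block]

theorem fold_len (s : List (ℕ × ℕ)) (hs : ∀ r ∈ s, r ∈ allRev) {p : List ℤ} (h : p.length = 7) :
    (s.foldl (fun q r => rev r q) p).length = 7 := by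
  induction s generalizing p with
  | nil => exact h
  | cons r s ih =>
    exact ih (fun r' hr' => hs r' (List.mem_cons_of_mem _ hr'))
      (rev_len (hs r List.mem_cons_self) h)

theorem fold_back (s : List (ℕ × ℕ)) (hs : ∀ r ∈ s, r ∈ allRev) {p : List ℤ} (h : p.length = 7) :
    s.reverse.foldl (fun q r => rev r q) (s.foldl (fun q r => rev r q) p) = p := by
  induction s generalizing p with
  | nil => rfl
  | cons r s ih =>
    simp only [List.reverse_cons, List.foldl_append, List.foldl_cons, List.foldl_nil]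
    rw [ih (fun r' hr' => hs r' (List.mem_cons_of_mem _ hr')) (rev_len (hs r List.mem_cons_self) h)]
    exact rev_rev (hs r List.mem_cons_self) h

theorem tb_eq (b i : ℕ) : tb b i = b.testBit i := by
  unfold tb Nat.testBit
  change Nat.beq ((b >>> i) &&& 1) 1 = (1 &&& (b >>> i) != 0)
  rw [Nat.and_comm 1, Nat.and_one_is_mod]
  rcases Nat.mod_two_eq_zero_or_one (b >>> i) with h | h <;> rw [h] <;> rfl

theorem lor_tb (a b i : ℕ) : (Nat.lor a b).testBit i = (a.testBit i || b.testBit i) :=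
  Nat.testBit_or a b i

theorem bl_step (k i : ℕ) {r : ℕ × ℕ} (hr : r ∈ allRev) {p : List ℤ} (h : p.length = 7)
    (hb : (st (bl k) 0 (rev r p)).testBit i = true) : (st (bl (k + 1)) 0 p).testBit i = true := by
  obtain ⟨x1, x2, x3, x4, x5, x6, x7, rfl⟩ := len7 h
  simp only [allRev, List.mem_cons, List.not_mem_nil, or_false] at hr
  have key : ∀ a1 b1 a2 b2 a3 b3 a4 b4 a5 b5 a6 b6 a7 b7,
      bl (k + 1) a1 b1 a2 b2 a3 b3 a4 b4 a5 b5 a6 b6 a7 b7 = Nat.lor (bl k b1 a1 a2 b2 a3 b3 a4 b4 a5 b5 a6 b6 a7 b7)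
      (Nat.lor (bl k b2 a2 b1 a1 a3 b3 a4 b4 a5 b5 a6 b6 a7 b7)
      (Nat.lor (bl k b3 a3 b2 a2 b1 a1 a4 b4 a5 b5 a6 b6 a7 b7)
      (Nat.lor (bl k b4 a4 b3 a3 b2 a2 b1 a1 a5 b5 a6 b6 a7 b7)
      (Nat.lor (bl k b5 a5 b4 a4 b3 a3 b2 a2 b1 a1 a6 b6 a7 b7)
      (Nat.lor (bl k b6 a6 b5 a5 b4 a4 b3 a3 b2 a2 b1 a1 a7 b7)
      (Nat.lor (bl k b7 a7 b6 a6 b5 a5 b4 a4 b3 a3 b2 a2 b1 a1)
      (Nat.lor (bl k a1 b1 b2 a2 a3 b3 a4 b4 a5 b5 a6 b6 a7 b7)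
      (Nat.lor (bl k a1 b1 b3 a3 b2 a2 a4 b4 a5 b5 a6 b6 a7 b7)
      (Nat.lor (bl k a1 b1 b4 a4 b3 a3 b2 a2 a5 b5 a6 b6 a7 b7)
      (Nat.lor (bl k a1 b1 b5 a5 b4 a4 b3 a3 b2 a2 a6 b6 a7 b7)
      (Nat.lor (bl k a1 b1 b6 a6 b5 a5 b4 a4 b3 a3 b2 a2 a7 b7)
      (Nat.lor (bl k a1 b1 b7 a7 b6 a6 b5 a5 b4 a4 b3 a3 b2 a2)
      (Nat.lor (bl k a1 b1 a2 b2 b3 a3 a4 b4 a5 b5 a6 b6 a7 b7)
      (Nat.lor (bl k a1 b1 a2 b2 b4 a4 b3 a3 a5 b5 a6 b6 a7 b7)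
      (Nat.lor (bl k a1 b1 a2 b2 b5 a5 b4 a4 b3 a3 a6 b6 a7 b7)
      (Nat.lor (bl k a1 b1 a2 b2 b6 a6 b5 a5 b4 a4 b3 a3 a7 b7)
      (Nat.lor (bl k a1 b1 a2 b2 b7 a7 b6 a6 b5 a5 b4 a4 b3 a3)
      (Nat.lor (bl k a1 b1 a2 b2 a3 b3 b4 a4 a5 b5 a6 b6 a7 b7)
      (Nat.lor (bl k a1 b1 a2 b2 a3 b3 b5 a5 b4 a4 a6 b6 a7 b7)
      (Nat.lor (bl k a1 b1 a2 b2 a3 b3 b6 a6 b5 a5 b4 a4 a7 b7)
      (Nat.lor (bl k a1 b1 a2 b2 a3 b3 b7 a7 b6 a6 b5 a5 b4 a4)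
      (Nat.lor (bl k a1 b1 a2 b2 a3 b3 a4 b4 b5 a5 a6 b6 a7 b7)
      (Nat.lor (bl k a1 b1 a2 b2 a3 b3 a4 b4 b6 a6 b5 a5 a7 b7)
      (Nat.lor (bl k a1 b1 a2 b2 a3 b3 a4 b4 b7 a7 b6 a6 b5 a5)
      (Nat.lor (bl k a1 b1 a2 b2 a3 b3 a4 b4 a5 b5 b6 a6 a7 b7)
      (Nat.lor (bl k a1 b1 a2 b2 a3 b3 a4 b4 a5 b5 b7 a7 b6 a6)
      (bl k a1 b1 a2 b2 a3 b3 a4 b4 a5 b5 a6 b6 b7 a7))))))))))))))))))))))))))) := by
    intros; rfl
  simp only [st, key, lor_tb, Bool.or_eq_true]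
  rcases hr with rfl|rfl|rfl|rfl|rfl|rfl|rfl|rfl|rfl|rfl|rfl|rfl|rfl|rfl|rfl|rfl|rfl|rfl|rfl|rfl|rfl|rfl|rfl|rfl|rfl|rfl|rfl|rfl <;>
    simp only [rev, block, st, List.take, List.drop, List.reverse_cons, List.reverse_nil,
      List.map_cons, List.map_nil, List.nil_append, List.cons_append, neg_neg, Nat.reduceSub,
      List.append_nil] at hb <;> simp only [hb, true_or, or_true]

theorem bl_sound (s : List (ℕ × ℕ)) (hs' : ∀ r ∈ s, r ∈ allRev) {p : List ℤ} (h : p.length = 7) :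
    (st (bl s.length) 0 p).testBit (st hs 0 (s.foldl (fun q r => rev r q) p)) = true := by
  induction s generalizing p with
  | nil =>
    obtain ⟨x1, x2, x3, x4, x5, x6, x7, rfl⟩ := len7 h
    change (1 <<< _).testBit _ = true
    rw [Nat.one_shiftLeft]
    exact Nat.testBit_two_pow_self
  | cons r s ih =>
    exact bl_step _ _ (hs' r List.mem_cons_self) h
      (ih (fun r' hr' => hs' r' (List.mem_cons_of_mem _ hr')) (rev_len (hs' r List.mem_cons_self) h))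

theorem test_aux (c : ℕ → ℕ) (k i : ℕ) (h1 : (c (k + 1)).testBit i = true) :
    test (c 1) (c 2) (c 3) k i = true := by
  match k, h1 with
  | 0, h1 => exact (tb_eq _ _).trans h1
  | 1, h1 => exact (tb_eq _ _).trans h1
  | 2, h1 => exact (tb_eq _ _).trans h1
  | k + 3, _ => rfl

theorem test_true (s : List (ℕ × ℕ)) (hs' : ∀ r ∈ s, r ∈ allRev) {p : List ℤ} (h : p.length = 7)
    (hf : s.foldl (fun q r => rev r q) p = id7) (k : ℕ) (hk : s.length = k + 1) :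
    test (st (bl 1) 0 id7) (st (bl 2) 0 id7) (st (bl 3) 0 id7) k (st hs 0 p) = true := by
  have h1 := bl_sound s.reverse (fun r hr => hs' r (List.mem_reverse.1 hr)) (p := id7) rfl
  have h2 : s.reverse.foldl (fun q r => rev r q) id7 = p := by
    rw [← hf]; exact fold_back s hs' h
  rw [h2, List.length_reverse, hk] at h1
  generalize st hs 0 p = i at h1 ⊢
  exact test_aux (fun j => st (bl j) 0 id7) k i h1

theorem chk_step (c0 c1 c2 c3 : ℕ) (ok : List (ℕ × ℕ) → Bool) (k : ℕ) (pre : List (ℕ × ℕ))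
    {r : ℕ × ℕ} (hr : r ∈ allRev) {p : List ℤ} (h : p.length = 7)
    (ht : test c1 c2 c3 k (st hs 0 p) = true)
    (hb : st (chk c0 c1 c2 c3 ok (k + 1) pre) false p = true) :
    st (chk c0 c1 c2 c3 ok k (r :: pre)) false (rev r p) = true := by
  obtain ⟨x1, x2, x3, x4, x5, x6, x7, rfl⟩ := len7 h
  simp only [allRev, List.mem_cons, List.not_mem_nil, or_false] at hr
  have key : ∀ a1 b1 a2 b2 a3 b3 a4 b4 a5 b5 a6 b6 a7 b7,
      chk c0 c1 c2 c3 ok (k + 1) pre a1 b1 a2 b2 a3 b3 a4 b4 a5 b5 a6 b6 a7 b7 =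
      or (not (test c1 c2 c3 k (hs a1 b1 a2 b2 a3 b3 a4 b4 a5 b5 a6 b6 a7 b7))) (and (chk c0 c1 c2 c3 ok k ((1, 1) :: pre) b1 a1 a2 b2 a3 b3 a4 b4 a5 b5 a6 b6 a7 b7)
      (and (chk c0 c1 c2 c3 ok k ((1, 2) :: pre) b2 a2 b1 a1 a3 b3 a4 b4 a5 b5 a6 b6 a7 b7)
      (and (chk c0 c1 c2 c3 ok k ((1, 3) :: pre) b3 a3 b2 a2 b1 a1 a4 b4 a5 b5 a6 b6 a7 b7)
      (and (chk c0 c1 c2 c3 ok k ((1, 4) :: pre) b4 a4 b3 a3 b2 a2 b1 a1 a5 b5 a6 b6 a7 b7)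
      (and (chk c0 c1 c2 c3 ok k ((1, 5) :: pre) b5 a5 b4 a4 b3 a3 b2 a2 b1 a1 a6 b6 a7 b7)
      (and (chk c0 c1 c2 c3 ok k ((1, 6) :: pre) b6 a6 b5 a5 b4 a4 b3 a3 b2 a2 b1 a1 a7 b7)
      (and (chk c0 c1 c2 c3 ok k ((1, 7) :: pre) b7 a7 b6 a6 b5 a5 b4 a4 b3 a3 b2 a2 b1 a1)
      (and (chk c0 c1 c2 c3 ok k ((2, 2) :: pre) a1 b1 b2 a2 a3 b3 a4 b4 a5 b5 a6 b6 a7 b7)
      (and (chk c0 c1 c2 c3 ok k ((2, 3) :: pre) a1 b1 b3 a3 b2 a2 a4 b4 a5 b5 a6 b6 a7 b7)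
      (and (chk c0 c1 c2 c3 ok k ((2, 4) :: pre) a1 b1 b4 a4 b3 a3 b2 a2 a5 b5 a6 b6 a7 b7)
      (and (chk c0 c1 c2 c3 ok k ((2, 5) :: pre) a1 b1 b5 a5 b4 a4 b3 a3 b2 a2 a6 b6 a7 b7)
      (and (chk c0 c1 c2 c3 ok k ((2, 6) :: pre) a1 b1 b6 a6 b5 a5 b4 a4 b3 a3 b2 a2 a7 b7)
      (and (chk c0 c1 c2 c3 ok k ((2, 7) :: pre) a1 b1 b7 a7 b6 a6 b5 a5 b4 a4 b3 a3 b2 a2)
      (and (chk c0 c1 c2 c3 ok k ((3, 3) :: pre) a1 b1 a2 b2 b3 a3 a4 b4 a5 b5 a6 b6 a7 b7)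
      (and (chk c0 c1 c2 c3 ok k ((3, 4) :: pre) a1 b1 a2 b2 b4 a4 b3 a3 a5 b5 a6 b6 a7 b7)
      (and (chk c0 c1 c2 c3 ok k ((3, 5) :: pre) a1 b1 a2 b2 b5 a5 b4 a4 b3 a3 a6 b6 a7 b7)
      (and (chk c0 c1 c2 c3 ok k ((3, 6) :: pre) a1 b1 a2 b2 b6 a6 b5 a5 b4 a4 b3 a3 a7 b7)
      (and (chk c0 c1 c2 c3 ok k ((3, 7) :: pre) a1 b1 a2 b2 b7 a7 b6 a6 b5 a5 b4 a4 b3 a3)
      (and (chk c0 c1 c2 c3 ok k ((4, 4) :: pre) a1 b1 a2 b2 a3 b3 b4 a4 a5 b5 a6 b6 a7 b7)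
      (and (chk c0 c1 c2 c3 ok k ((4, 5) :: pre) a1 b1 a2 b2 a3 b3 b5 a5 b4 a4 a6 b6 a7 b7)
      (and (chk c0 c1 c2 c3 ok k ((4, 6) :: pre) a1 b1 a2 b2 a3 b3 b6 a6 b5 a5 b4 a4 a7 b7)
      (and (chk c0 c1 c2 c3 ok k ((4, 7) :: pre) a1 b1 a2 b2 a3 b3 b7 a7 b6 a6 b5 a5 b4 a4)
      (and (chk c0 c1 c2 c3 ok k ((5, 5) :: pre) a1 b1 a2 b2 a3 b3 a4 b4 b5 a5 a6 b6 a7 b7)
      (and (chk c0 c1 c2 c3 ok k ((5, 6) :: pre) a1 b1 a2 b2 a3 b3 a4 b4 b6 a6 b5 a5 a7 b7)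
      (and (chk c0 c1 c2 c3 ok k ((5, 7) :: pre) a1 b1 a2 b2 a3 b3 a4 b4 b7 a7 b6 a6 b5 a5)
      (and (chk c0 c1 c2 c3 ok k ((6, 6) :: pre) a1 b1 a2 b2 a3 b3 a4 b4 a5 b5 b6 a6 a7 b7)
      (and (chk c0 c1 c2 c3 ok k ((6, 7) :: pre) a1 b1 a2 b2 a3 b3 a4 b4 a5 b5 b7 a7 b6 a6)
      (chk c0 c1 c2 c3 ok k ((7, 7) :: pre) a1 b1 a2 b2 a3 b3 a4 b4 a5 b5 a6 b6 b7 a7)))))))))))))))))))))))))))) := by
    intros; rfl
  simp only [st] at ht hb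
  rw [key, ht] at hb
  simp only [Bool.not_true, Bool.false_or, Bool.and_eq_true] at hb
  rcases hr with rfl|rfl|rfl|rfl|rfl|rfl|rfl|rfl|rfl|rfl|rfl|rfl|rfl|rfl|rfl|rfl|rfl|rfl|rfl|rfl|rfl|rfl|rfl|rfl|rfl|rfl|rfl|rfl <;>
    simp only [rev, block, st, List.take, List.drop, List.reverse_cons, List.reverse_nil,
      List.map_cons, List.map_nil, List.nil_append, List.cons_append, neg_neg, Nat.reduceSub,
      List.append_nil] <;> simp only [hb]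

theorem chk_sound (ok : List (ℕ × ℕ) → Bool) (s : List (ℕ × ℕ)) (hs' : ∀ r ∈ s, r ∈ allRev)
    (pre : List (ℕ × ℕ)) {p : List ℤ} (h : p.length = 7)
    (hf : s.foldl (fun q r => rev r q) p = id7)
    (hb : st (chk (st code 0 id7) (st (bl 1) 0 id7) (st (bl 2) 0 id7) (st (bl 3) 0 id7) ok
      s.length pre) false p = true) : ok (s.reverse ++ pre) = true := by
  induction s generalizing p pre with
  | nil =>
    simp only [List.foldl_nil] at hf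
    subst hf
    have : (or (not (Nat.beq (st code 0 id7) (st code 0 id7))) (ok pre)) = true := hb
    simpa using this
  | cons r s ih =>
    have := ih (fun r' hr' => hs' r' (List.mem_cons_of_mem _ hr')) (r :: pre)
      (rev_len (hs' r List.mem_cons_self) h) hf
      (chk_step _ _ _ _ ok _ pre (hs' r List.mem_cons_self) h
        (test_true (r :: s) hs' h hf _ rfl) hb)
    simpa using this

def okF (t : List (ℕ × ℕ)) : Bool := decide (t.reverse ∈ classA) || decide (t.reverse ∈ classB)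

theorem eval : fN (st code 0 id7) (fun c0 => fN (st (bl 1) 0 id7) (fun c1 =>
    fN (st (bl 2) 0 id7) (fun c2 => fN (st (bl 3) 0 id7) (fun c3 =>
      (List.range 7).all fun k =>
        chk c0 c1 c2 c3 okF k [] 7 9 5 11 3 13 2 14 4 12 1 15 6 10)))) = true := by
  decide +kernel

theorem classify {s : List (ℕ × ℕ)} (hs : Sorts 7 pi7 s) (hl : s.length ≤ 6) :
    s ∈ classA ∨ s ∈ classB := by
  have h := eval
  simp only [fN_eq, List.all_eq_true, List.mem_range] at h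
  have := chk_sound okF s (fun r hr => mem_allRev (hs.1 r hr)) [] (p := pi7) rfl hs.2
    (h s.length (by omega))
  simpa [okF] using this

def sA : List (ℕ × ℕ) := [(1, 5), (2, 6), (2, 5), (3, 6), (1, 5), (2, 7)]
def sB : List (ℕ × ℕ) := [(1, 1), (6, 7), (4, 6), (3, 5), (3, 4), (2, 3)]

theorem sorts_A : Sorts 7 pi7 sA := by unfold Sorts; decide
theorem sorts_B : Sorts 7 pi7 sB := by unfold Sorts; decide

theorem len_class : ∀ s, s ∈ classA ∨ s ∈ classB → s.length = 6 := by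
  have h1 : ∀ s ∈ classA, s.length = 6 := by decide
  have h2 : ∀ s ∈ classB, s.length = 6 := by decide
  exact fun s hs => hs.elim (h1 s) (h2 s)

theorem dist_eq : revDist 7 pi7 = 6 := by
  have hmem : 6 ∈ {k | ∃ s, Sorts 7 pi7 s ∧ s.length = k} := ⟨sA, sorts_A, rfl⟩
  have h1 : revDist 7 pi7 ≤ 6 := Nat.sInf_le hmem
  obtain ⟨s, hs, hl⟩ := Nat.sInf_mem ⟨6, hmem⟩
  have hl' : s.length = revDist 7 pi7 := hl
  rw [← hl']
  exact len_class s (classify hs (hl' ▸ h1))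

theorem no_move : ∀ a ∈ classA, ∀ b ∈ classB,
    ¬ ((a.zip b).countP (fun x => x.1 ≠ x.2) ≤ 4 ∨ (∃ r ∈ a, r ∈ b) ∨
      ∃ A ∈ contents pi7 a, A ∈ contents pi7 b) ∧
    ¬ ((b.zip a).countP (fun x => x.1 ≠ x.2) ≤ 4 ∨ (∃ r ∈ b, r ∈ a) ∨
      ∃ A ∈ contents pi7 b, A ∈ contents pi7 a) := by
  decide +kernel

theorem result : ∃ (n : ℕ) (p : List ℤ), 1 ≤ n ∧ IsSignedPerm n p ∧
    ∃ a b : {s // Optimal n p s}, ¬ (moveGraph n p).Reachable a b := by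
  refine ⟨7, pi7, by norm_num, by unfold IsSignedPerm; decide,
    ⟨sA, sorts_A, dist_eq.symm⟩, ⟨sB, sorts_B, dist_eq.symm⟩, ?_⟩
  have key : ∀ a b : {s // Optimal 7 pi7 s}, (moveGraph 7 pi7).Reachable a b →
      a.1 ∈ classA → b.1 ∈ classA := by
    rintro a b ⟨w⟩
    induction w with
    | nil => exact id
    | @cons u v _ hadj _ ih =>
      intro hu
      apply ih
      rcases classify v.2.1 (by rw [v.2.2, dist_eq]) with hv | hv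
      · exact hv
      · exfalso
        have := no_move u.1 hu v.1 hv
        rw [moveGraph, SimpleGraph.fromRel_adj] at hadj
        exact hadj.2.elim this.1 this.2
  intro h
  have h2 : sB ∈ classA := key _ _ h (by decide)
  revert h2
  decide

end Pool.Agent.Results.MP_75988d_co.Disconnected
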